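import Pool.Agent.Q50.MB.Main

/-!
# Hecke identities at more than seven eighths of the primes in one Frobenius class

Let `F` be an imaginary quadratic field of class number one, `r` a representation of its Galois group
modulo `p` with cyclotomic determinant, for instance `E[p]` for an elliptic curve `E`, and `N ≠ 0` a
level. Let `L` be a finite Galois extension of `F` without quadratic extensions of `F`, over which
`r` is irreducible, and `τ ∈ Gal(L/F)`. If a nonzero class `c ∈ H¹(Y₀(N), k)` satisfies
`T_π c = Tr(r(Frob_π)) c` for more than `7/8` of the primes `π` whose Frobenius class in `Gal(L/F)` is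
the one of `τ`, then some eigenform of level `N` satisfies this for all primes not dividing `p N`.

For `L = F` the set of primes is any set of upper density greater than `7/8`; for `L` with simple
non-abelian Galois group, for example, sets of arbitrarily small density are enough. If `r` does not
occur in level `N`, then no nonzero class satisfies the identity for more than `7/8` of the primes of
such a Frobenius class.

Proved in Lean: the theorem on representations of finite groups over any field whose traces agree on
most elements of a coset, and the passage from the class `c` to an eigenform.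
-/

set_option autoImplicit false
set_option linter.ambiguousOpen false

universe u

namespace Pool.Agent.Results.MP_3099cf_nt.SevenEighthsOfAClass

open Pool.Agent.Q50.ES Pool.Agent.Q50.ES.MB NumberField
open Pool.Agent.Q50.ES.MS (Mod Irreducible)

/-- **Serre's conjecture from most primes of one Frobenius class.** (0) Unconditional: two
representations of dimension `n > 0` of a finite group over any field, the first one absolutely
irreducible on a subgroup `N`, whose traces differ on less than `|N| / (2 n ^ 2)` elements of a coset of
`N` are isomorphic on `N`. (1) Let `r` be a representation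
modulo `p` with cyclotomic determinant over an imaginary quadratic field `F` of class number one,
`N ≠ 0` and `(L, τ)` admissible for `r`. Then `r` occurs in `H¹(Y₀(N), k)` if and only if some nonzero
class satisfies the Hecke identities of `r` for more than `7/8` of the primes of the class of `τ` in
`Gal(L/F)`. (2) The conjecture for `p` holds for all elliptic curves if and only if every `E[p]` as in
the conjecture has this property for its Serre conductor and some `(L, τ)`. -/
theorem result :
    (∀ (k : Type u) [Field k] (G : Type) [Group G] [Finite G] (n : ℕ)
      (ρ σ : G →* Matrix (Fin n) (Fin n) k) (N : Subgroup G) (t : G), 0 < n →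
      (∀ a, a ∈ Submodule.span k (ρ '' N)) →
      2 * n ^ 2 * {x | x ∈ N ∧ (ρ (t * x)).trace ≠ (σ (t * x)).trace}.ncard < (N : Set G).ncard →
      ∃ P : GL (Fin n) k, ∀ g ∈ N, σ g = (P : Matrix (Fin n) (Fin n) k) * ρ g *
        ((P⁻¹ : GL (Fin n) k) : Matrix (Fin n) (Fin n) k)) ∧
    ∀ (k : Type u) [Field k] [IsAlgClosed k] (T : MB.Data k), T.Facts →
      (∀ (F : Fld) (N : Level F) (r : Mod k F) (L : Fld) (τ : Γ), ClassNumberOne F → NonZero N →
        T.Cyclotomic r → Data.Admissible r L τ → (T.Occurs N r ↔ T.OccursMostly N r L τ)) ∧
      ((∀ F, ClassNumberOne F → ∀ E : T.Curve F, Irreducible (T.tors E) → T.Flat E →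
          T.Occurs (T.cond E) (T.tors E)) ↔
        ∀ F, ClassNumberOne F → ∀ E : T.Curve F, Irreducible (T.tors E) → T.Flat E →
          ∃ L τ, Data.Admissible (T.tors E) L τ ∧
            T.OccursMostly (T.cond E) (T.tors E) L τ) :=
  ⟨fun _ _ _ _ _ _ ρ σ N t hn hspan hcard => MC.iso_of_traces hn ρ σ N t hspan hcard,
    fun _ _ _ _ hT =>
      ⟨fun _ _ r _ _ hF hN hr ha => MB.Data.occurs_iff hT hF hN r hr ha, MB.Data.all_iff hT⟩⟩

end Pool.Agent.Results.MP_3099cf_nt.SevenEighthsOfAClass
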